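import Mathlib
import Pool.Agent.Q209.FSepPos2
import Pool.Agent.Q209.FSepBC
import Pool.Agent.Q209.FSepNeg

/-!
# `F`-separability and the Fréchet-Urysohn property of `C_p(X)`

MP_1ca5ad_gt, Q1: for every Tychonoff space `X`, if `C_p(X)` is `F`-separable, then it is
Fréchet-Urysohn. Borel's conjecture implies that this is true, and `𝔭 > ω₁` implies that this is
false. Both hypotheses are consistent with ZFC (Laver; Martin's axiom), so Q1 can neither be proved
nor disproved in ZFC.
-/

set_option autoImplicit false

namespace Pool.Agent.Results.MP_1ca5ad_gt.Independence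

open Cardinal Q209.FSep

universe u

theorem result :
    (BorelConjecture → ∀ (X : Type u) [TopologicalSpace X] [T35Space X],
      FSeparable (Cp X) → Countable X ∧ FrechetUrysohnSpace (Cp X)) ∧
    (aleph 1 < pseudoNumber → ∃ (X : Type) (_ : TopologicalSpace X), T35Space X ∧
      FSeparable (Cp X) ∧ ¬ FrechetUrysohnSpace (Cp X)) := by
  refine ⟨fun hBC X _ _ hX => ?_, fun hp => ⟨D1, inferInstance, inferInstance, ?_, ?_⟩⟩
  · exact ⟨countable_of_FSep hBC (lt_bounding_of_BC hBC) hX,
      frechetUrysohn_of_FSep hBC (lt_bounding_of_BC hBC) hX⟩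
  · exact FSeparable_D1 hp
  · exact not_frechetUrysohn_D1

end Pool.Agent.Results.MP_1ca5ad_gt.Independence
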